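import Pool.Agent.J6H25.Canon.Diff

set_option autoImplicit false

/-!
# The Erdős-Rado canonical theorem for consecutive primes at every scale, next to a record gap

Let `f(x) = log x (log₂ x)² log₄ x / (log₃ x)²`, the size of the largest gaps between consecutive
primes that are known to occur up to `x`.  Let `g` be an ARBITRARY translation invariant function of
the `(k + 1)`-element sets of integers `q_0 < … < q_k`, that is, an arbitrary function of the
differences `(q_1 - q_0, …, q_k - q_(k-1))`.  For every `H` with `1 ≤ H ≤ c f(x)` there are at least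
`x^(7/8)` blocks of `m + 1` consecutive primes up to `x` that follow a gap of size at least
`c f(x)`, whose `m` gaps are between `H` and `C H`, and on whose `(k + 1)`-element subsets `g` is
CANONICAL in the sense of Erdős and Rado: there is `J ⊆ {0, …, k}` such that

`g(q_0, …, q_k) = g(q'_0, …, q'_k)` if and only if `q_t = q'_t` for all `t ∈ J`.

For `k = 1` there are four cases: all differences `q' - q` of two primes of the block have the same
value of `g`, or `g(q' - q)` determines exactly `q`, or exactly `q'`, or exactly the pair.  The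
constants `c`, `C`, `x₀` depend only on `k`, `m` and on the number `s` of functions, when the theorem
is applied to several functions at once.  With `H = c f(x)` all `m + 1` gaps have record size.

Method.  The Milliken-Taylor theorem for gaps (`Pool.Agent.Y898.MTC.mt_gaps` of the starting files,
helper898) is applied to the equality patterns of `g`; the canonical form is extracted from the
invariance of the patterns under increasing maps (`Pool.Agent.J6H25.Canon.ER`).
-/

namespace Pool.Agent.Results.MP_b0c12c_nt.CanonicalDifferences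

/-- The record scale `f(x) = log x (log₂ x)² log₄ x / (log₃ x)²` (iterated natural logarithms). -/
noncomputable def f (x : ℝ) : ℝ :=
  Real.log x * (Real.log (Real.log x)) ^ 2 * Real.log (Real.log (Real.log (Real.log x))) /
    (Real.log (Real.log (Real.log x))) ^ 2

/-- The `i`-th prime, numbered from `p 0 = 2`. -/
noncomputable def p (i : ℕ) : ℕ := Nat.nth Nat.Prime i

/-- The gap after the `i`-th prime. -/
noncomputable def d (i : ℕ) : ℤ := (p (i + 1) : ℤ) - p i

/-- The primes `p_n, …, p_(n+k)` are at most `x`, the `k` gaps between them are at least `H` and at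
most `C H`, and the gap before `p_n` is at least `c f(x)`. -/
def Cluster (c C x H : ℝ) (k n : ℕ) : Prop :=
  0 < n ∧ (p (n + k) : ℝ) ≤ x ∧ c * f x ≤ (d (n - 1) : ℝ) ∧
    ∀ i < k, H ≤ (d (n + i) : ℝ) ∧ (d (n + i) : ℝ) ≤ C * H

/-- The vector of the successive differences of the primes `p_(n + i 0), …, p_(n + i k)`. -/
noncomputable def diffs (n : ℕ) {k : ℕ} (i : Fin (k + 1) → ℕ) : Fin k → ℤ :=
  fun l => (p (n + i l.succ) : ℤ) - p (n + i l.castSucc)

theorem finite_of {x : ℝ} {k : ℕ} {S : Set ℕ} (h : ∀ n ∈ S, (p (n + k) : ℝ) ≤ x) : S.Finite := by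
  refine (Set.finite_Iic ⌊x⌋₊).subset ?_
  intro n hn
  refine Nat.le_floor (le_trans ?_ (h n hn))
  have h2 : n + k ≤ Nat.nth Nat.Prime (n + k) :=
    (Nat.nth_strictMono Nat.infinite_setOfPred_prime).le_apply
  exact_mod_cast (Nat.le_add_right n k).trans h2

/-- **The Erdős-Rado canonical theorem for consecutive primes next to a record gap.**  For all `k`,
`m` and `s` there are `c > 0`, `C` and `x₀` such that for all `x ≥ x₀`, all `H` with `1 ≤ H ≤ c f(x)`
and all functions `g 0, …, g (s - 1)` of `k` integers there are at least `x^(7/8)` blocks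
`p_n, …, p_(n+m)` of consecutive primes up to `x`, with all `m` gaps between `H` and `C H` and the gap
before `p_n` at least `c f(x)`, such that for every `e < s` there is a set `J` of coordinates with:
for any two increasing sequences `i`, `j` of `k + 1` indices `≤ m`, the function `g e` takes the same
value at the differences of `p_(n + i 0) < … < p_(n + i k)` and of `p_(n + j 0) < … < p_(n + j k)` if
and only if `i t = j t` for all `t ∈ J`. -/
theorem result (k m s : ℕ) : ∃ c C : ℝ, 0 < c ∧
    ∃ x₀ : ℝ, ∀ x : ℝ, x₀ ≤ x → ∀ H : ℝ, 1 ≤ H → H ≤ c * f x →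
    ∀ g : Fin s → (Fin k → ℤ) → ℕ,
    x ^ (7 / 8 : ℝ) ≤ (Set.ncard {n : ℕ | Cluster c C x H m n ∧
      ∀ e : Fin s, ∃ J : Finset (Fin (k + 1)), ∀ i j : Fin (k + 1) → ℕ,
        StrictMono i → StrictMono j → (∀ t, i t ≤ m) → (∀ t, j t ≤ m) →
        (g e (diffs n i) = g e (diffs n j) ↔ ∀ t ∈ J, i t = j t)} : ℝ) := by
  obtain ⟨c, C, hc, -, h⟩ := Pool.Agent.J6H25.Canon.gap_diffs k m s
  obtain ⟨x₀, hx₀⟩ := Filter.eventually_atTop.1 h
  refine ⟨c, C, hc, x₀, fun x hx H hH hHc g => (hx₀ x hx H hH hHc g).trans ?_⟩
  rw [Nat.cast_le]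
  refine Set.ncard_le_ncard ?_ (finite_of (k := m) fun n hn => hn.1.2.1)
  rintro n ⟨⟨h1, h2, h3, h4, -⟩, h5⟩
  refine ⟨⟨h1, h2, ?_, fun i hi => ?_⟩, fun e => h5 e⟩
  · unfold d p
    rw [Nat.sub_add_cancel h1]
    push_cast
    exact h3
  · unfold d p
    push_cast
    exact h4 i hi

end Pool.Agent.Results.MP_b0c12c_nt.CanonicalDifferences
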