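import Pool.Agent.H362R2.RQ.Fin
import Pool.Agent.H362R2.RQ.Prop
import Pool.Agent.J6H13.LR.Main

/-!
# Common limit points of `(p_(n+1) - p_n) / h (p_n)`, `(p_(n+2) - p_n) / h (p_n)`, ..., at every scale up to the
# record gaps

Let `f(x) = log x (log₂ x)² log₄ x / (log₃ x)²`, the order of the largest gaps between consecutive primes that
are known to occur. For every scale `h` between `log x` and `o (f x)` a positive proportion `c` of all positive
real numbers, with an absolute constant `c`, consists of numbers which are limit points of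
`(p_(n+r+1) - p_n) / h (p_n)` for ALL `r = 0, 1, 2, ...` at the same time, even along the strings
`p_n, ..., p_(n+r+1)` of consecutive primes in one class modulo `q`. At the record scale `h = f` itself the same
holds for all `r ≤ k` and the numbers up to some `T₀ (k) > 0`, with the same absolute constant `c`.

Proof. It rests on the theorem of the starting files on points in record windows
(`Pool.Agent.H362R2.RQ.prop_all`: there are windows all of whose primes are near given points, and in which at
least `η m` of the `m` given points are approached by primes). Let `s > 1 / η`. If none of `t, 2 t, ..., s t` is a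
common limit point for `r ≤ k`, then each `l t` fails for some `r (l) ≤ k`. The points are placed in `s` groups
of many points near the multiples `0, t, ..., (s - 1) t` of `t`. There are two neighbouring groups approached by
primes, with at least `k + 2` primes; around the boundary we find two primes of different groups `i < j` with
exactly `r (j - i)` primes in between. So the common limit points for `r ≤ k` contain a multiple `l t`, `l ≤ s`,
of every `t > 0` and have measure at least `T / s ^ 2` in `[0, T]`, for all `k`.
-/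

set_option autoImplicit false

open Filter Topology MeasureTheory

namespace Pool.Agent.Results.MP_b0c12c_nt.CommonLimitPoints

/-- the record scale `f(x) = log x (log₂ x)² log₄ x / (log₃ x)²` -/
noncomputable def f (x : ℝ) : ℝ :=
  Real.log x * (Real.log (Real.log x)) ^ 2 * Real.log (Real.log (Real.log (Real.log x))) /
    (Real.log (Real.log (Real.log x))) ^ 2

/-- `v` is a limit point of `(p_(n+r+1) - p_n) / h (p_n)`, for the `n` with
`p_n ≡ ... ≡ p_(n+r+1) ≡ a (mod q)` (`Nat.nth Nat.Prime n` is the prime with index `n`, counted from `0`) -/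
def LimPt (h : ℝ → ℝ) (q a r : ℕ) (v : ℝ) : Prop :=
  ∀ ε : ℝ, 0 < ε → ∃ᶠ n : ℕ in atTop, (∀ i ≤ r + 1, Nat.nth Nat.Prime (n + i) ≡ a [MOD q]) ∧
    |((Nat.nth Nat.Prime (n + r + 1) : ℝ) - Nat.nth Nat.Prime n) / h (Nat.nth Nat.Prime n) - v| < ε

/-- There is an absolute constant `c > 0` with the following two properties, for all squarefree `q` and all `a`
coprime to `q`.
* For every function `h`, nondecreasing from some point on, with `log x ≤ h x` for large `x`, `h = o (f)` and
  `h (5 x) / h x → 1`, and every `T > 0`: the set of the `v ∈ [0, T]` which are limit points of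
  `(p_(n+r+1) - p_n) / h (p_n)` for every `r ≥ 0` (primes `≡ a` modulo `q`) has measure at least `c T`.
* For every `k` there is `T₀ > 0` such that for `0 < T ≤ T₀` the set of the `v ∈ [0, T]` which are limit points
  of `(p_(n+r+1) - p_n) / f (p_n)` for every `r ≤ k` (primes `≡ a` modulo `q`) has measure at least `c T`. -/
theorem result : ∃ c : ℝ, 0 < c ∧
    (∀ h : ℝ → ℝ, (∃ x₀ : ℝ, MonotoneOn h (Set.Ici x₀)) → (∀ᶠ x : ℝ in atTop, Real.log x ≤ h x) →
      Tendsto (fun x => h (5 * x) / h x) atTop (𝓝 1) → Tendsto (fun x => h x / f x) atTop (𝓝 0) →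
      ∀ q a : ℕ, Squarefree q → a.Coprime q → ∀ T : ℝ, 0 < T →
      ENNReal.ofReal (c * T) ≤ volume ({v | ∀ r, LimPt h q a r v} ∩ Set.Icc 0 T)) ∧
    (∀ k : ℕ, ∃ T₀ : ℝ, 0 < T₀ ∧ ∀ q a : ℕ, Squarefree q → a.Coprime q → ∀ T : ℝ, 0 < T → T ≤ T₀ →
      ENNReal.ofReal (c * T) ≤ volume ({v | ∀ r ≤ k, LimPt f q a r v} ∩ Set.Icc 0 T)) := by
  obtain ⟨η, hη, hP⟩ := Pool.Agent.H362R2.RQ.prop_all Pool.Agent.H362R2.RQ.stRQ
  obtain ⟨c, hc, h1, h2⟩ := Pool.Agent.J6H13.LR.main_of hη (fun m hm => by
    obtain ⟨c, hc, h⟩ := hP m hm
    exact ⟨c, hc, fun δ hδ q a hq ha => eventually_atTop.1 (h δ hδ q a hq ha)⟩)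
  exact ⟨c, hc, fun h a1 a2 a3 a4 => h1 h ⟨a1, a2, a3⟩ a4, h2⟩

end Pool.Agent.Results.MP_b0c12c_nt.CommonLimitPoints
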