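import Pool.Agent.J6H10.GW.Main

/-!
# Record gaps and the tetris operation

Let `f(x) = log x (log₂ x)² log₄ x / (log₃ x)²`, the size of the largest gaps between consecutive primes that are
known to occur up to `x`. For `k ≥ 1` Gowers' space `FIN_k` consists of the functions `p : ℕ → {0, …, k}` with finite
support which attain the value `k`; `T p = max (p - 1, 0)` is the tetris operation. Here `p` is given by its graph
over the support, the finite set of the pairs `(a, p(a))` with `p(a) ≥ 1`.

Let `d(a, v)`, `a ∈ ℕ`, be positive reals with `d(a, v) → 0` as `a → ∞`, for `v = 1, …, k`, and let the weight of `p`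
be `d(p) = ∑_{p(a) > 0} d(a, p(a))`. There are `p_0, p_1, … ∈ FIN_k` with supports `supp p_0 < supp p_1 < …` such that
for ALL exponents `t_i ≤ k` and all finite sets `F_0 < F_1 < … < F_{m-1}` of indices, far enough out and each of them
containing some `i` with `t_i = 0`, the vector `ρ · (∑_{i ∈ F_l} d(T^{t_i} p_i))_{l < m}`, and the reversed vector, are
limit points of the vectors of `m` consecutive prime gaps divided by `f`; the dilation factor `ρ` is an arbitrary
positive function of the elements `∑_{i ∈ F} T^{t_i} p_i` of `FIN_k` given by `n` further blocks `F` which precede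
`F_0`. (For `k = 1` and `t_i = 0` this is the starting result `RecordSumSystem` of `MP_028722_nt`.)

As there, the theorem holds for countably many functions `d_s`, dilation functions, residue classes and SCALES at
once, with the same `p_i`: the record function can be replaced by any slowly varying `H` with
`log x ≤ H(x) = O(f(x))`, and if `H(x) = o(f(x))` the numbers need not tend to `0`.

Method: the Maynard-Tao theorem inside the record windows (in the form of `Pool.Agent.W126.RecSum` of the starting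
files), and an infinite dimensional form of Gowers' theorem for closed families of block sequences
(`Pool.Agent.J6H10.GW.closed_tet`): for ultrafilters `q_1, …, q_k` with `T q_{n+1} = q_n` and
`q_m + q_n = q_{max(m, n)}` a strategy argument shows that almost all choices with respect to `q_k` can be continued.
-/

open Filter Topology

set_option autoImplicit false

namespace Pool.Agent.Results.MP_b0c12c_nt.GowersRecordGaps

/-- The record scale `f(x) = log x (log₂ x)² log₄ x / (log₃ x)²` (iterated natural logarithms). -/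
noncomputable def f (x : ℝ) : ℝ :=
  Real.log x * (Real.log (Real.log x)) ^ 2 * Real.log (Real.log (Real.log (Real.log x))) /
    (Real.log (Real.log (Real.log x))) ^ 2

/-- The set of the vectors `v ∈ ℝ^m` such that for every `ε > 0` there are infinitely many `n` with
`p_(n+i) ≡ r (mod q)` for `0 ≤ i ≤ m` and `|(p_(n+i+1) - p_(n+i)) / H(p_n) - v i| < ε` for
`0 ≤ i < m` (`p_n` is the prime with index `n`): the limit points of the vectors of `m` consecutive
gaps divided by `H`, along blocks of `m + 1` consecutive primes in the class `r` modulo `q`. -/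
def LimitPoints (H : ℝ → ℝ) (m q r : ℕ) : Set (Fin m → ℝ) :=
  {v | ∀ ε : ℝ, 0 < ε → ∃ᶠ n : ℕ in atTop,
    (∀ i ≤ m, Nat.nth Nat.Prime (n + i) ≡ r [MOD q]) ∧
    ∀ i : Fin m, |((Nat.nth Nat.Prime (n + i + 1) : ℝ) - Nat.nth Nat.Prime (n + i)) /
      H (Nat.nth Nat.Prime n) - v i| < ε}

/-- `T^t p` for the function `p` with the graph `w`: the pairs `(a, v - t)` with `(a, v) ∈ w`, `v > t` -/
def T (t : ℕ) (w : Finset (ℕ × ℕ)) : Finset (ℕ × ℕ) :=
  (w.filter fun x => t < x.2).image fun x => (x.1, x.2 - t)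

/-- the weight `∑ d(a, v)` over the pairs `(a, v) ∈ w` -/
noncomputable def weight (d : ℕ → ℕ → ℝ) (w : Finset (ℕ × ℕ)) : ℝ := ∑ x ∈ w, d x.1 x.2

/-- `w` is the graph (over the support) of an element of `FIN_k`: a function with values in `{1, …, k}` on a finite
set which attains the value `k` -/
def IsFIN (k : ℕ) (w : Finset (ℕ × ℕ)) : Prop :=
  (∀ x ∈ w, ∀ y ∈ w, x.1 = y.1 → x = y) ∧ (∀ x ∈ w, 1 ≤ x.2 ∧ x.2 ≤ k) ∧ ∃ x ∈ w, x.2 = k

/-- Let `k ≥ 1`. For every index `s` let `H s` be a slowly varying function with `log x ≤ H s x`, let `d s a v` be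
positive reals, `q s` a squarefree modulus, `r s` a residue prime to it, and for every `n` let `ρ s n` be a positive
function of `n` finite sets of pairs. Suppose that `H s = o(f)`, or that `H s = O(f)` and `d s a v` tends to `0` as
`a → ∞` for every `v`. There are `p i` in `FIN_k` with `supp (p i) < supp (p (i + 1))` such that for all `s, n, m`
there is `N` with: for all exponents `t i ≤ k` and all finite sets `N ≤ F_0 < F_1 < … < F_(n+m-1)`, each of them with
an element `i` with `t i = 0`, the vector of the sums of the weights of `T^(t i) (p i)` over `i ∈ F_(n+l)`,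
`0 ≤ l < m`, multiplied by `ρ s n` of the functions `∑ T^(t i) (p i)` over the first `n` blocks, and the reversed
vector, are limit points of the vectors of `m` consecutive prime gaps divided by `H s`, along the primes
`≡ r s (mod q s)`. -/
theorem result (k : ℕ) (hk : 1 ≤ k) (H : ℕ → ℝ → ℝ)
    (hlow : ∀ s, ∀ᶠ x : ℝ in atTop, Real.log x ≤ H s x)
    (hslow : ∀ s, ∀ ε : ℝ, 0 < ε → ∀ᶠ x : ℝ in atTop, ∀ t : ℝ, x ≤ t → t ≤ 4 * x →
      |H s x / H s t - 1| < ε)
    (d : ℕ → ℕ → ℕ → ℝ) (hd : ∀ s a v, 0 < d s a v)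
    (hc : ∀ s, (∀ c : ℝ, 0 < c → ∀ᶠ x : ℝ in atTop, H s x ≤ c * f x) ∨
      ((∃ C : ℝ, ∀ᶠ x : ℝ in atTop, H s x ≤ C * f x) ∧
        ∀ v, Tendsto (fun a => d s a v) atTop (𝓝 0)))
    (q r : ℕ → ℕ) (hq : ∀ s, Squarefree (q s)) (hr : ∀ s, (r s).Coprime (q s))
    (ρ : ℕ → ∀ n, (Fin n → Finset (ℕ × ℕ)) → ℝ) (hρ : ∀ s n P, 0 < ρ s n P) :
    ∃ p : ℕ → Finset (ℕ × ℕ), (∀ i, IsFIN k (p i)) ∧
      (∀ i, ∀ x ∈ p i, ∀ y ∈ p (i + 1), x.1 < y.1) ∧
      ∀ s n m : ℕ, ∃ N : ℕ, ∀ (F : ℕ → Finset ℕ) (t : ℕ → ℕ), (∀ i, t i ≤ k) →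
        (∀ l < n + m, ∃ i ∈ F l, t i = 0) → (∀ l < n + m, ∀ i ∈ F l, N ≤ i) →
        (∀ l, l + 1 < n + m → ∀ i ∈ F l, ∀ i' ∈ F (l + 1), i < i') →
        (fun l : Fin m => ρ s n (fun l' => (F l').biUnion fun i => T (t i) (p i)) *
          ∑ i ∈ F (n + l), weight (d s) (T (t i) (p i))) ∈ LimitPoints (H s) m (q s) (r s) ∧
        (fun l : Fin m => ρ s n (fun l' => (F l').biUnion fun i => T (t i) (p i)) *
          ∑ i ∈ F (n + (Fin.rev l : Fin m)), weight (d s) (T (t i) (p i))) ∈
            LimitPoints (H s) m (q s) (r s) := by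
  obtain ⟨W, hW, h⟩ := Pool.Agent.J6H10.GW.main_tet hk H (fun s => ⟨hlow s, hslow s⟩) d hd hc q r
    hq hr ρ hρ
  exact ⟨W, fun i => ⟨(hW.lev i).1, (hW.lev i).2.1, (hW.lev i).2.2⟩, hW.lt, h⟩

end Pool.Agent.Results.MP_b0c12c_nt.GowersRecordGaps
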