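import Pool.Agent.J6H13.RL.Fin
import Pool.Agent.J6H13.RL.Pts

/-!
# `C k²` points suffice for `k` consecutive gaps at the record scale

Let `f(x) = log x (log₂ x)² log₄ x / (log₃ x)²`, the order of the largest gaps between consecutive primes that
are known to occur. At the scale `log x` Banks, Freiberg and Maynard proved: among the differences of any
`8 k² + 16 k` points `β_1 ≤ β_2 ≤ ...` there is a vector `(β_(j_1) - β_(j_0), ..., β_(j_k) - β_(j_(k-1)))`,
`j_0 < ... < j_k`, which is a limit point of the vectors of `k` consecutive prime gaps divided by `log`. Here this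
is proved with `C k²` points at every scale `H` between `log X` and `c (k) f(X)`, in particular at the record scale,
with many occurrences, uniformly in the points, and for primes in one class modulo a squarefree `q`.

Proof. The coloured Maynard-Tao theorem with a penalty for repeated colours inside the windows of the record sieve
(`Pool.Agent.J6H13.RL.stRL`): there are windows in which all primes are near the points and in which the number of
the points approached by exactly one prime is more than `k + 1` times the number of the primes near the other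
points, plus `k`. So somewhere `k + 1` consecutive primes of the window are near different points.
-/

set_option autoImplicit false

namespace Pool.Agent.Results.MP_b0c12c_nt.QuadraticallyManyPoints

/-- the record scale `f(x) = log x (log₂ x)² log₄ x / (log₃ x)²` -/
noncomputable def f (x : ℝ) : ℝ :=
  Real.log x * (Real.log (Real.log x)) ^ 2 * Real.log (Real.log (Real.log (Real.log x))) /
    (Real.log (Real.log (Real.log x))) ^ 2

/-- the `n`-th prime, counted from `p 0 = 2` -/
noncomputable def p (n : ℕ) : ℕ := Nat.nth Nat.Prime n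

/-- There is an absolute constant `C` such that for every `k ≥ 1` there is `c > 0` with the following property.
Let `δ > 0`, `q` squarefree, `a` coprime to `q`, `X` large, `log X ≤ H ≤ c f(X)` and
`0 ≤ β_0 ≤ β_1 ≤ ... ≤ 1` any `C k ^ 2` points. Then there are at least `X ^ (7/8)` strings
`p_n < ... < p_(n+k)` of consecutive primes in `(X, 4 X]`, all `≡ a` modulo `q`, for which the vector
`((p_(n+1) - p_n) / H, ..., (p_(n+k) - p_(n+k-1)) / H)` is within `δ` of
`(β_(j_1) - β_(j_0), ..., β_(j_k) - β_(j_(k-1)))` for some `j_0 < j_1 < ... < j_k`. -/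
theorem result : ∃ C : ℕ, ∀ k : ℕ, 1 ≤ k → ∃ c : ℝ, 0 < c ∧ ∀ δ : ℝ, 0 < δ →
    ∀ q a : ℕ, Squarefree q → a.Coprime q →
    ∃ X₀ : ℝ, ∀ X : ℝ, X₀ ≤ X → ∀ H : ℝ, Real.log X ≤ H → H ≤ c * f X →
    ∀ β : Fin (C * k ^ 2) → ℝ, Monotone β → (∀ i, 0 ≤ β i ∧ β i ≤ 1) →
      X ^ (7 / 8 : ℝ) ≤ ({n : ℕ | X < p n ∧ (p (n + k) : ℝ) ≤ 4 * X ∧ (∀ i ≤ k, p (n + i) ≡ a [MOD q]) ∧
        ∃ j : Fin (k + 1) → Fin (C * k ^ 2), StrictMono j ∧
          ∀ i : Fin k, |((p (n + i + 1) : ℝ) - p (n + i)) / H - (β (j i.succ) - β (j i.castSucc))| ≤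
            δ}.ncard : ℝ) := by
  obtain ⟨C, hC1, hmain⟩ := Pool.Agent.J6H13.RL.points_of Pool.Agent.J6H13.RL.stRL
  refine ⟨C, fun k hk => ?_⟩
  obtain ⟨c, hc, h1⟩ := hmain k hk
  refine ⟨c, hc, fun δ hδ q a hq ha => ?_⟩
  obtain ⟨X₀, hX₀⟩ := h1 δ hδ q a hq ha
  refine ⟨X₀, fun X hX H hH1 hH2 β hβ hβ1 => ?_⟩
  obtain ⟨b, hb⟩ : ∃ b : ℕ → ℝ, ∀ i (hi : i < C * k ^ 2), b i = β ⟨i, hi⟩ :=
    ⟨fun i => if hi : i < C * k ^ 2 then β ⟨i, hi⟩ else 0, fun i hi => by simp only [hi, dite_true]⟩
  have h2 := hX₀ X hX H hH1 hH2 b (fun i hi => by rw [hb i hi]; exact hβ1 _)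
    (fun i j hij hj => by
      rw [hb i (lt_of_le_of_lt hij hj), hb j hj]
      exact hβ hij)
  refine h2.trans ?_
  have hinf : (Set.ofPred Nat.Prime).Infinite := Nat.infinite_setOfPred_prime
  apply Nat.cast_le.2
  apply Set.ncard_le_ncard
  · rintro n ⟨a1, a2, a3, j, a4, a5, a6⟩
    have hjm : ∀ i i' : ℕ, i < i' → i' ≤ k → j i < j i' := by
      intro i i' hii
      induction i' with
      | zero => exact absurd hii (Nat.not_lt_zero _)
      | succ i' ih =>
        intro hi'
        rcases Nat.lt_or_eq_of_le (Nat.lt_succ_iff.1 hii) with h | h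
        · exact (ih h (by omega)).trans (a4 i' (by omega))
        · rw [h]
          exact a4 i' (by omega)
    have hjk : ∀ i, i ≤ k → j i < C * k ^ 2 := by
      intro i hi
      rcases Nat.lt_or_eq_of_le hi with h | h
      · exact (hjm i k h le_rfl).trans a5
      · rw [h]; exact a5
    refine ⟨a1, a2, a3, fun i => ⟨j i, hjk i (Nat.lt_succ_iff.1 i.2)⟩, ?_, ?_⟩
    · intro i i' hii
      exact hjm i i' hii (Nat.lt_succ_iff.1 i'.2)
    · intro i
      have h3 := a6 i i.2
      have h4 : Nat.nth Nat.Prime (n + i) ≤ Nat.nth Nat.Prime (n + i + 1) :=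
        (Nat.nth_strictMono hinf).monotone (Nat.le_succ _)
      have h5 : ((Pool.Agent.J6H13.RL.gap (n + i) : ℕ) : ℝ) = (p (n + i + 1) : ℝ) - p (n + i) := by
        unfold Pool.Agent.J6H13.RL.gap p
        rw [Nat.cast_sub h4]
      rw [h5, hb (j (i + 1)) (hjk _ i.2), hb (j i) (hjk _ i.2.le)] at h3
      exact h3
  · apply Set.Finite.subset (Set.finite_le_nat ⌊4 * X⌋₊)
    rintro n ⟨-, h2, -⟩
    have h1 : n ≤ p (n + k) := (Nat.le_add_right n k).trans ((Nat.nth_strictMono hinf).id_le _)
    have h3 : (n : ℝ) ≤ 4 * X := le_trans (by exact_mod_cast h1) h2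
    exact Nat.le_floor h3

end Pool.Agent.Results.MP_b0c12c_nt.QuadraticallyManyPoints
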